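import Pool.Agent.H75.SQ.Basic

/-!
# The entropy of an exponential (row COV of qst_modules)
-/

set_option autoImplicit false

open Finset Matrix Pool.Agent.H75.SQ

namespace Pool.Agent.H40.SQ.COV

theorem pair_le (l a b : ℝ) (hl : 0 ≤ l) :
    (Real.exp (l * a) - Real.exp (l * b)) * (l * (a - b)) ≤
      l ^ 2 * (max 0 (a - b) ^ 2 * Real.exp (l * a)) +
        l ^ 2 * (max 0 (b - a) ^ 2 * Real.exp (l * b)) := by
  have key : ∀ a b : ℝ, b ≤ a → (Real.exp (l * a) - Real.exp (l * b)) * (l * (a - b)) ≤
      l ^ 2 * (max 0 (a - b) ^ 2 * Real.exp (l * a)) := by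
    intro a b hab
    rw [max_eq_right (sub_nonneg.2 hab)]
    have h1 : Real.exp (l * b) = Real.exp (l * a) * Real.exp (-(l * (a - b))) := by
      rw [← Real.exp_add]
      ring_nf
    have h2 : 1 - l * (a - b) ≤ Real.exp (-(l * (a - b))) := by
      have := Real.add_one_le_exp (-(l * (a - b)))
      linarith
    have h3 : Real.exp (l * a) - Real.exp (l * b) ≤ Real.exp (l * a) * (l * (a - b)) := by
      rw [h1]
      have := mul_le_mul_of_nonneg_left h2 (Real.exp_pos (l * a)).le
      nlinarith
    have h4 : 0 ≤ l * (a - b) := mul_nonneg hl (sub_nonneg.2 hab)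
    calc (Real.exp (l * a) - Real.exp (l * b)) * (l * (a - b))
        ≤ (Real.exp (l * a) * (l * (a - b))) * (l * (a - b)) :=
          mul_le_mul_of_nonneg_right h3 h4
      _ = l ^ 2 * ((a - b) ^ 2 * Real.exp (l * a)) := by ring
  have pos : ∀ x y : ℝ, 0 ≤ l ^ 2 * (max 0 (x - y) ^ 2 * Real.exp (l * x)) := by
    intro x y
    have := (Real.exp_pos (l * x)).le
    positivity
  rcases le_total b a with h | h
  · have h1 := key a b h
    have h2 := pos b a
    linarith
  · have h1 := key b a h
    have h2 := pos a b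
    have h3 : (Real.exp (l * a) - Real.exp (l * b)) * (l * (a - b)) =
        (Real.exp (l * b) - Real.exp (l * a)) * (l * (b - a)) := by ring
    linarith

/-- (COV) the entropy of an exponential. -/
theorem pf_COV : T_COV := by
  intro γ _ w g l hw hl
  have hb : 0 < ∑ C, w C * Real.exp (l * g C) := by
    obtain ⟨C, hC⟩ : ∃ C, 0 < w C := by
      by_contra hc
      push Not at hc
      have h0 : ∑ C, w C ≤ 0 := Finset.sum_nonpos fun C _ => hc C
      rw [hw.2] at h0
      linarith
    exact Finset.sum_pos' (fun D _ => mul_nonneg (hw.1 D) (Real.exp_pos _).le)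
      ⟨C, Finset.mem_univ _, mul_pos hC (Real.exp_pos _)⟩
  have hlog : ∑ C, w C * (l * g C) ≤ Real.log (∑ C, w C * Real.exp (l * g C)) := by
    have h1 : ∀ C, w C * (l * g C) ≤ w C * Real.log (∑ C, w C * Real.exp (l * g C)) +
        (w C * Real.exp (l * g C)) / (∑ C, w C * Real.exp (l * g C)) - w C := by
      intro C
      have h2 := Real.log_le_sub_one_of_pos (div_pos (Real.exp_pos (l * g C)) hb)
      rw [Real.log_div (Real.exp_pos _).ne' hb.ne', Real.log_exp] at h2
      have h3 := mul_le_mul_of_nonneg_left h2 (hw.1 C)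
      have h4 : w C * (Real.exp (l * g C) / (∑ C, w C * Real.exp (l * g C)) - 1) =
          (w C * Real.exp (l * g C)) / (∑ C, w C * Real.exp (l * g C)) - w C := by ring
      rw [h4] at h3
      linarith
    have h5 := Finset.sum_le_sum fun C (_ : C ∈ Finset.univ) => h1 C
    rw [Finset.sum_sub_distrib, Finset.sum_add_distrib, ← Finset.sum_mul, ← Finset.sum_div,
      hw.2, one_mul, div_self hb.ne'] at h5
    linarith
  set S : γ → γ → ℝ := fun C C' => w C * w C' * (Real.exp (l * g C) * (l * (g C - g C')))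
    with hS
  set R : γ → γ → ℝ := fun C C' =>
    w C * w C' * (l ^ 2 * (max 0 (g C - g C') ^ 2 * Real.exp (l * g C))) with hR
  have hA : ∑ C, w C * (Real.exp (l * g C) * Real.log (Real.exp (l * g C))) -
      (∑ C, w C * Real.exp (l * g C)) * Real.log (∑ C, w C * Real.exp (l * g C)) ≤
      ∑ C, ∑ C', S C C' := by
    have h1 : ∑ C, ∑ C', S C C' = ∑ C, w C * (Real.exp (l * g C) * (l * g C)) -
        (∑ C, w C * Real.exp (l * g C)) * ∑ C, w C * (l * g C) := by
      rw [Finset.sum_mul, ← Finset.sum_sub_distrib]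
      refine Finset.sum_congr rfl fun C _ => ?_
      have h2 : w C * (Real.exp (l * g C) * (l * g C)) =
          ∑ C', w C' * (w C * (Real.exp (l * g C) * (l * g C))) := by
        rw [← Finset.sum_mul, hw.2, one_mul]
      rw [h2, Finset.mul_sum, ← Finset.sum_sub_distrib]
      refine Finset.sum_congr rfl fun C' _ => ?_
      rw [hS]
      ring
    rw [h1]
    have h3 := mul_le_mul_of_nonneg_left hlog hb.le
    simp only [Real.log_exp]
    linarith
  have hB : l ^ 2 * ∑ C, ∑ C', w C * w C' * (max 0 (g C - g C') ^ 2 * Real.exp (l * g C)) =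
      ∑ C, ∑ C', R C C' := by
    rw [Finset.mul_sum]
    refine Finset.sum_congr rfl fun C _ => ?_
    rw [Finset.mul_sum]
    refine Finset.sum_congr rfl fun C' _ => ?_
    rw [hR]
    ring
  have hSc : ∑ C, ∑ C', S C C' = ∑ C, ∑ C', S C' C := Finset.sum_comm
  have hRc : ∑ C, ∑ C', R C C' = ∑ C, ∑ C', R C' C := Finset.sum_comm
  have hle : ∑ C, ∑ C', (S C C' + S C' C) ≤ ∑ C, ∑ C', (R C C' + R C' C) := by
    refine Finset.sum_le_sum fun C _ => Finset.sum_le_sum fun C' _ => ?_
    have h1 := mul_le_mul_of_nonneg_left (pair_le l (g C) (g C') hl)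
      (mul_nonneg (hw.1 C) (hw.1 C'))
    have h2 : S C C' + S C' C = w C * w C' *
        ((Real.exp (l * g C) - Real.exp (l * g C')) * (l * (g C - g C'))) := by
      rw [hS]
      ring
    have h3 : R C C' + R C' C = w C * w C' *
        (l ^ 2 * (max 0 (g C - g C') ^ 2 * Real.exp (l * g C)) +
          l ^ 2 * (max 0 (g C' - g C) ^ 2 * Real.exp (l * g C'))) := by
      rw [hR]
      ring
    rw [h2, h3]
    exact h1
  simp only [Finset.sum_add_distrib] at hle
  rw [← hSc, ← hRc] at hle
  rw [hB]
  linarith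

end Pool.Agent.H40.SQ.COV
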